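import Pool.Agent.H601R2.PCG.Alg
import Pool.Agent.Helper448.PPlane
import Pool.Agent.NPC.Dec

/-!
# Planar clique graphs are recognised in polynomial time
-/

set_option autoImplicit false

namespace Pool.Agent.Results.MP_8f2c22_lc.PlanarCliqueGraphInP

open Pool.Agent.NPC Pool.Agent.H601R2.PCG Pool.Agent.Helper448.PDefs Pool.Agent.Helper448.PDec

/-- There is a polynomial-time algorithm (a Turing machine in Mathlib's sense, answering `true` or
`false` on every input) which decides, for every finite planar graph given by its adjacency matrix,
whether it is a clique graph, that is, isomorphic to the clique graph of some finite graph.  The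
same algorithm is correct for all finite graphs without a `K₅` minor. -/
theorem result : ∃ V : List Bool → List Bool, PolyTime V ∧ (∀ x, V x = [true] ∨ V x = [false]) ∧
    ∀ (n : ℕ) (G : SimpleGraph (Fin n)), (Planar G ∨ NoK5 G) →
      (V (bits (R671.adjMatrix G)) = [true] ↔ IsCliqueGraph G) := by
  refine ⟨fun x => [(unbits (List (List Bool)) x).elim false alg], ?_, fun x => ?_,
    fun n G hG => ?_⟩
  · exact polyTime_of_poly (Poly.optElim (h := fun _ a => alg a) poly_unbits (NPC.Poly.const _)
      (poly_alg.comp (Poly.snd Poly.id)))
  · simp only [List.cons.injEq, and_true]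
    exact Bool.eq_false_or_eq_true _
  · have h5 : NoK5 G := hG.elim (fun h => Pool.Agent.Helper448.PPlane.noK5 h) id
    rw [← alg_correct h5]
    simp [unbits_bits]

end Pool.Agent.Results.MP_8f2c22_lc.PlanarCliqueGraphInP
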